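import Pool.Agent.Q188.Quasi.Defs

/-!
# The quasigeodesics on the regular tetrahedron
-/

set_option autoImplicit false
open Set

namespace Q188.Quasi

theorem neg_one_zpow_sq (i : ℤ) : ((-1 : ℝ) ^ i) * ((-1 : ℝ) ^ i) = 1 := by
  rcases Int.even_or_odd i with h | h
  · rw [h.neg_one_zpow]; norm_num
  · rw [h.neg_one_zpow]; norm_num

theorem neg_one_succ (i : ℤ) : ((-1 : ℝ) ^ (i + 1)) = -((-1 : ℝ) ^ i) := by
  rw [zpow_add_one₀ (by norm_num)]
  ring

theorem Wv_int' (k : ℤ) {h : ℝ} (h0 : 0 ≤ h) (h1 : h ≤ 1) :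
    Wv (k + h) = (-1) ^ k * (1 - 2 * h) := by
  rw [Wv_int k (by rw [abs_of_nonneg h0]; exact h1), abs_of_nonneg h0]

theorem up_eq (i j : ℤ) {a b : ℝ} (ha : 0 ≤ a) (hb : 0 ≤ b) (hab : a + b ≤ 1) :
    Fo (i + a) (j + b) = p3 ((-1) ^ j * (1 - 2 * b)) ((-1) ^ i * (1 - 2 * a))
      ((-1) ^ (i + j) * (1 - 2 * (a + b))) := by
  unfold Fo
  have e : (i : ℝ) + a + (j + b) = ((i + j : ℤ) : ℝ) + (a + b) := by push_cast; ring
  rw [e, Wv_int' _ ha (by linarith), Wv_int' _ hb (by linarith), Wv_int' _ (by linarith) hab]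

theorem up_mem (i j : ℤ) {a b : ℝ} (ha : 0 ≤ a) (hb : 0 ≤ b) (hab : a + b ≤ 1) :
    Fo (i + a) (j + b) ∈ face Reg (idx (i + 1) (j + 1)) := by
  have h := mem_face (A := Reg) (k := idx (i + 1) (j + 1)) (a := idx i j) (b := idx (i + 1) j)
    (c := idx i (j + 1)) (idx_ne_both i j) (idx_ne_right (i + 1) j) (idx_ne_left i (j + 1))
    (x := 1 - a - b) (y := a) (z := b) (by linarith) ha hb (by ring)
  rw [up_eq i j ha hb hab]
  convert h using 1
  rw [reg_idx, reg_idx, reg_idx]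
  have e1 : i + 1 + j = (i + j) + 1 := by ring
  have e2 : i + (j + 1) = (i + j) + 1 := by ring
  apply ext3
  · simp only [PiLp.add_apply, PiLp.smul_apply, p3_zero, smul_eq_mul]
    rw [neg_one_succ]
    ring
  · simp only [PiLp.add_apply, PiLp.smul_apply, p3_one, smul_eq_mul]
    rw [neg_one_succ]
    ring
  · simp only [PiLp.add_apply, PiLp.smul_apply, p3_two, smul_eq_mul]
    rw [e1, e2, neg_one_succ]
    ring

theorem down_eq (i j : ℤ) {a b : ℝ} (ha : a ≤ 1) (hb : b ≤ 1) (hab : 1 ≤ a + b) :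
    Fo (i + a) (j + b) = p3 ((-1) ^ j * (1 - 2 * b)) ((-1) ^ i * (1 - 2 * a))
      ((-1) ^ (i + j) * (2 * (a + b) - 3)) := by
  unfold Fo
  have e : (i : ℝ) + a + (j + b) = ((i + j + 1 : ℤ) : ℝ) + (a + b - 1) := by push_cast; ring
  rw [e, Wv_int' _ (by linarith) ha, Wv_int' _ (by linarith) hb,
    Wv_int' _ (by linarith) (by linarith), neg_one_succ]
  apply ext3
  · rfl
  · rfl
  · simp only [p3_two]
    ring

theorem down_mem (i j : ℤ) {a b : ℝ} (ha : a ≤ 1) (hb : b ≤ 1) (hab : 1 ≤ a + b) :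
    Fo (i + a) (j + b) ∈ face Reg (idx i j) := by
  have h := mem_face (A := Reg) (k := idx i j) (a := idx (i + 1) (j + 1)) (b := idx (i + 1) j)
    (c := idx i (j + 1)) (idx_ne_both i j).symm (idx_ne_left i j).symm (idx_ne_right i j).symm
    (x := a + b - 1) (y := 1 - b) (z := 1 - a) (by linarith) (by linarith) (by linarith) (by ring)
  rw [down_eq i j ha hb hab]
  convert h using 1
  rw [reg_idx, reg_idx, reg_idx]
  have e1 : i + 1 + j = (i + j) + 1 := by ring
  have e2 : i + (j + 1) = (i + j) + 1 := by ring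
  have e3 : i + 1 + (j + 1) = ((i + j) + 1) + 1 := by ring
  apply ext3
  · simp only [PiLp.add_apply, PiLp.smul_apply, p3_zero, smul_eq_mul]
    rw [neg_one_succ]
    ring
  · simp only [PiLp.add_apply, PiLp.smul_apply, p3_one, smul_eq_mul]
    rw [neg_one_succ]
    ring
  · simp only [PiLp.add_apply, PiLp.smul_apply, p3_two, smul_eq_mul]
    rw [e3, e1, e2, neg_one_succ (i + j + 1), neg_one_succ]
    ring

/-! ### angles -/

theorem inner3 (p q : E3) : inner ℝ p q = p 0 * q 0 + p 1 * q 1 + p 2 * q 2 := by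
  rw [PiLp.inner_apply, Fin.sum_univ_three]
  simp only [RCLike.inner_apply, conj_trivial]
  ring

theorem normsq3 (p : E3) : ‖p‖ ^ 2 = p 0 ^ 2 + p 1 ^ 2 + p 2 ^ 2 := by
  rw [← real_inner_self_eq_norm_sq, inner3]
  ring

theorem angle_sum {d₁ d₂ w : E3} (h : inner ℝ d₁ w = -inner ℝ w d₂) (hn : ‖d₁‖ = ‖d₂‖) :
    InnerProductGeometry.angle d₁ w + InnerProductGeometry.angle w d₂ = Real.pi := by
  unfold InnerProductGeometry.angle
  rw [h, hn, mul_comm ‖d₂‖ ‖w‖, neg_div, Real.arccos_neg]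
  ring

theorem norm_eq_of_sq {p q : E3} (h : p 0 ^ 2 + p 1 ^ 2 + p 2 ^ 2 = q 0 ^ 2 + q 1 ^ 2 + q 2 ^ 2) :
    ‖p‖ = ‖q‖ := by
  rw [← normsq3, ← normsq3] at h
  exact (sq_eq_sq₀ (norm_nonneg _) (norm_nonneg _)).1 h

theorem angle_reg {p q : E3} (hp : ‖p‖ ^ 2 = 8) (hq : ‖q‖ ^ 2 = 8) (h : inner ℝ p q = 4) :
    InnerProductGeometry.angle p q = Real.pi / 3 := by
  have h1 : ‖p‖ = ‖q‖ := (sq_eq_sq₀ (norm_nonneg _) (norm_nonneg _)).1 (by rw [hp, hq])
  unfold InnerProductGeometry.angle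
  rw [h, h1, ← sq, hq]
  have : (4:ℝ) / 8 = Real.cos (Real.pi / 3) := by rw [Real.cos_pi_div_three]; norm_num
  rw [this, Real.arccos_cos (by positivity) (by linarith [Real.pi_pos])]

theorem total_reg (i : Fin 4) : totalAngle Reg i = Real.pi := by
  have key : ∀ i j l : Fin 4, i ≠ j → i ≠ l → j ≠ l →
      InnerProductGeometry.angle (Reg j - Reg i) (Reg l - Reg i) = Real.pi / 3 := by
    intro i j l hij hil hjl
    apply angle_reg
    · rw [normsq3]
      fin_cases i <;> fin_cases j <;> first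
        | exact absurd rfl hij
        | (simp [Reg]; norm_num)
    · rw [normsq3]
      fin_cases i <;> fin_cases l <;> first
        | exact absurd rfl hil
        | (simp [Reg]; norm_num)
    · rw [inner3]
      fin_cases i <;> fin_cases j <;> fin_cases l <;> first
        | exact absurd rfl hij
        | exact absurd rfl hil
        | exact absurd rfl hjl
        | (simp [Reg]; norm_num)
  have e : totalAngle Reg i = ∑ j : Fin 4, ∑ l : Fin 4, if j < l ∧ j ≠ i ∧ l ≠ i then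
      Real.pi / 3 else 0 := by
    unfold totalAngle
    apply Finset.sum_congr rfl
    intro j _
    apply Finset.sum_congr rfl
    intro l _
    split_ifs with h
    · exact key i j l h.2.1.symm h.2.2.symm (ne_of_lt h.1)
    · rfl
  rw [e]
  fin_cases i <;> simp [Fin.sum_univ_four] <;> ring

end Q188.Quasi
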