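import Mathlib

/-!
# Simple closed quasigeodesics on tetrahedra
-/

set_option autoImplicit false
open Set

namespace Q188.Quasi

/-- space -/
abbrev E3 := EuclideanSpace ℝ (Fin 3)

/-- the face opposite to the vertex `A k` -/
def face (A : Fin 4 → E3) (k : Fin 4) : Set E3 := convexHull ℝ (A '' {k}ᶜ)

/-- the total surface angle at the vertex `A i`: the sum of the angles at `A i` of the three faces
which contain `A i` -/
noncomputable def totalAngle (A : Fin 4 → E3) (i : Fin 4) : ℝ :=
  ∑ j : Fin 4, ∑ l : Fin 4, if j < l ∧ j ≠ i ∧ l ≠ i then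
    InnerProductGeometry.angle (A j - A i) (A l - A i) else 0

/-- Near the parameter `t` the curve `γ` on the surface of the tetrahedron `A` consists of the
segment from `γ t` in the direction `d₁` in the face `k` (run backwards in time) and of the segment
from `γ t` in the direction `d₂` in the face `l` (run forwards in time). -/
def Branches (A : Fin 4 → E3) (γ : ℝ → E3) (t : ℝ) (d₁ d₂ : E3) (k l : Fin 4) : Prop :=
  d₁ ≠ 0 ∧ d₂ ≠ 0 ∧ ∃ ε : ℝ, 0 < ε ∧ ∀ s ∈ Icc (0 : ℝ) ε,
    γ (t - s) = γ t + s • d₁ ∧ γ (t + s) = γ t + s • d₂ ∧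
      γ (t - s) ∈ face A k ∧ γ (t + s) ∈ face A l

/-- `α` is one of the two surface angles between the directions `d₁` (in the face `k`) and `d₂`
(in the face `l`) at a point of the edge with the end points `A i`, `A j`: if `k = l` it is the
angle in this face, and if `k ≠ l` then the edge from `A i` to `A j` is common to the two faces and
`α` is the surface angle which contains the direction `A j - A i`. -/
def SideAngle (A : Fin 4 → E3) (d₁ d₂ : E3) (k l i j : Fin 4) (α : ℝ) : Prop :=
  (k = l ∧ α = InnerProductGeometry.angle d₁ d₂) ∨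
    (k ≠ l ∧ i ≠ j ∧ i ≠ k ∧ i ≠ l ∧ j ≠ k ∧ j ≠ l ∧
      α = InnerProductGeometry.angle d₁ (A j - A i) + InnerProductGeometry.angle (A j - A i) d₂)

/-- The curve `γ` on the surface of the tetrahedron `A` satisfies the condition of quasigeodesics at
the parameter `t`: it consists of two segments near `t`, and the two surface angles between them
are at most `π`.  These are `α` and `θ - α`, where `θ` is the total surface angle at the point:
`2π` if the point is not a vertex, and `totalAngle A i` at the vertex `A i`. -/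
def QuasiAt (A : Fin 4 → E3) (γ : ℝ → E3) (t : ℝ) : Prop :=
  ∃ (d₁ d₂ : E3) (k l : Fin 4), Branches A γ t d₁ d₂ k l ∧
    (γ t ∉ range A → ∃ i j α, SideAngle A d₁ d₂ k l i j α ∧
      α ≤ Real.pi ∧ 2 * Real.pi - α ≤ Real.pi) ∧
    (∀ i, γ t = A i → ∃ j α, SideAngle A d₁ d₂ k l i j α ∧
      α ≤ Real.pi ∧ totalAngle A i - α ≤ Real.pi)

/-- `γ` runs once, with period `T`, along a simple closed quasigeodesic of the surface of the
tetrahedron with the vertices `A 0, A 1, A 2, A 3` -/
structure SimpleClosedQuasigeodesic (A : Fin 4 → E3) (γ : ℝ → E3) (T : ℝ) : Prop where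
  pos : 0 < T
  periodic : ∀ t, γ (t + T) = γ t
  simple : InjOn γ (Ico 0 T)
  quasi : ∀ t, QuasiAt A γ t

/-! ### the regular tetrahedron and its folding map -/

/-- point -/
noncomputable def p3 (x y z : ℝ) : E3 := !₂[x, y, z]

@[simp] theorem p3_zero (x y z : ℝ) : p3 x y z 0 = x := rfl
@[simp] theorem p3_one (x y z : ℝ) : p3 x y z 1 = y := rfl
@[simp] theorem p3_two (x y z : ℝ) : p3 x y z 2 = z := rfl

theorem ext3 {p q : E3} (h0 : p 0 = q 0) (h1 : p 1 = q 1) (h2 : p 2 = q 2) : p = q := by
  ext i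
  fin_cases i
  · exact h0
  · exact h1
  · exact h2

/-- the regular tetrahedron -/
noncomputable def Reg : Fin 4 → E3 := ![p3 1 1 1, p3 1 (-1) (-1), p3 (-1) 1 (-1), p3 (-1) (-1) 1]

/-- triangle wave of period `2` -/
noncomputable def Wv (x : ℝ) : ℝ := 1 - 2 * Real.arccos (Real.cos (Real.pi * x)) / Real.pi

theorem Wv_add_even (x : ℝ) (k : ℤ) : Wv (x + 2 * k) = Wv x := by
  unfold Wv
  have e : Real.pi * (x + 2 * k) = Real.pi * x + k * (2 * Real.pi) := by ring
  rw [e, Real.cos_add_int_mul_two_pi]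

theorem Wv_neg (x : ℝ) : Wv (-x) = Wv x := by
  unfold Wv
  rw [mul_neg, Real.cos_neg]

theorem Wv_small {x : ℝ} (h : |x| ≤ 1) : Wv x = 1 - 2 * |x| := by
  have hpi := Real.pi_pos
  unfold Wv
  have e : Real.cos (Real.pi * x) = Real.cos (Real.pi * |x|) := by
    rw [← Real.cos_abs (Real.pi * x), abs_mul, abs_of_pos hpi]
  rw [e, Real.arccos_cos (by positivity) (by nlinarith)]
  field_simp

theorem Wv_int (k : ℤ) {h : ℝ} (hh : |h| ≤ 1) : Wv (k + h) = (-1) ^ k * (1 - 2 * |h|) := by
  rcases Int.even_or_odd k with he | ho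
  · obtain ⟨r, hr⟩ := he
    have e : (k : ℝ) + h = h + 2 * r := by rw [hr]; push_cast; ring
    rw [e, Wv_add_even, Wv_small hh, Even.neg_one_zpow ⟨r, hr⟩, one_mul]
  · obtain ⟨r, hr⟩ := ho
    rw [Odd.neg_one_zpow ⟨r, hr⟩]
    rw [abs_le] at hh
    rcases le_total 0 h with h0 | h0
    · have e : (k : ℝ) + h = (h - 1) + 2 * (r + 1 : ℤ) := by rw [hr]; push_cast; ring
      rw [e, Wv_add_even, Wv_small (by rw [abs_le]; constructor <;> linarith),
        abs_of_nonpos (by linarith), abs_of_nonneg h0]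
      ring
    · have e : (k : ℝ) + h = (h + 1) + 2 * r := by rw [hr]; push_cast; ring
      rw [e, Wv_add_even, Wv_small (by rw [abs_le]; constructor <;> linarith),
        abs_of_nonneg (by linarith), abs_of_nonpos h0]
      ring

theorem Wv_eq_iff {x y : ℝ} (h : Wv x = Wv y) : ∃ k : ℤ, y = 2 * k + x ∨ y = 2 * k - x := by
  have hpi := Real.pi_pos
  unfold Wv at h
  have h1 : Real.arccos (Real.cos (Real.pi * x)) = Real.arccos (Real.cos (Real.pi * y)) := by
    have h2 : 2 * Real.arccos (Real.cos (Real.pi * x)) / Real.pi =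
        2 * Real.arccos (Real.cos (Real.pi * y)) / Real.pi := by linarith
    field_simp at h2
    linarith
  have h3 : Real.cos (Real.pi * x) = Real.cos (Real.pi * y) :=
    Real.arccos_injOn (Real.cos_mem_Icc _) (Real.cos_mem_Icc _) h1
  obtain ⟨k, hk⟩ := Real.cos_eq_cos_iff.1 h3
  refine ⟨k, ?_⟩
  rcases hk with hk | hk
  · left
    have : Real.pi * y = Real.pi * (2 * k + x) := by rw [hk]; ring
    exact mul_left_cancel₀ hpi.ne' this
  · right
    have : Real.pi * y = Real.pi * (2 * k - x) := by rw [hk]; ring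
    exact mul_left_cancel₀ hpi.ne' this

/-- the folding map of the plane onto the surface -/
noncomputable def Fo (s t : ℝ) : E3 := p3 (Wv t) (Wv s) (Wv (s + t))

/-- index of a lattice point -/
def idx (i j : ℤ) : Fin 4 :=
  if i % 2 = 0 then (if j % 2 = 0 then 0 else 2) else (if j % 2 = 0 then 1 else 3)

theorem reg_idx (i j : ℤ) : Reg (idx i j) = p3 ((-1) ^ j) ((-1) ^ i) ((-1) ^ (i + j)) := by
  unfold idx Reg
  by_cases hi : Even i <;> by_cases hj : Even j
  · rw [if_pos (Int.even_iff.1 hi), if_pos (Int.even_iff.1 hj), Even.neg_one_zpow hi,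
      Even.neg_one_zpow hj, Even.neg_one_zpow (hi.add hj)]
    rfl
  · have hj' := Int.not_even_iff_odd.1 hj
    rw [if_pos (Int.even_iff.1 hi), if_neg (fun h => hj (Int.even_iff.2 h)),
      Even.neg_one_zpow hi, Odd.neg_one_zpow hj', Odd.neg_one_zpow (hi.add_odd hj')]
    rfl
  · have hi' := Int.not_even_iff_odd.1 hi
    rw [if_neg (fun h => hi (Int.even_iff.2 h)), if_pos (Int.even_iff.1 hj),
      Odd.neg_one_zpow hi', Even.neg_one_zpow hj, Odd.neg_one_zpow (hi'.add_even hj)]
    rfl
  · have hi' := Int.not_even_iff_odd.1 hi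
    have hj' := Int.not_even_iff_odd.1 hj
    rw [if_neg (fun h => hi (Int.even_iff.2 h)), if_neg (fun h => hj (Int.even_iff.2 h)),
      Odd.neg_one_zpow hi', Odd.neg_one_zpow hj', Even.neg_one_zpow (hi'.add_odd hj')]
    rfl

theorem idx_ne_left (i j : ℤ) : idx i j ≠ idx (i + 1) j := by
  unfold idx
  split_ifs <;> first | omega | decide

theorem idx_ne_right (i j : ℤ) : idx i j ≠ idx i (j + 1) := by
  unfold idx
  split_ifs <;> first | omega | decide

theorem idx_ne_both (i j : ℤ) : idx i j ≠ idx (i + 1) (j + 1) := by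
  unfold idx
  split_ifs <;> first | omega | decide

theorem idx_ne_cross (i j : ℤ) : idx (i + 1) j ≠ idx i (j + 1) := by
  unfold idx
  split_ifs <;> first | omega | decide

theorem mem_face {A : Fin 4 → E3} {k a b c : Fin 4} (ha : a ≠ k) (hb : b ≠ k) (hc : c ≠ k)
    {x y z : ℝ} (hx : 0 ≤ x) (hy : 0 ≤ y) (hz : 0 ≤ z) (hs : x + y + z = 1) :
    x • A a + y • A b + z • A c ∈ face A k := by
  have h1 : ∀ m, m ≠ k → A m ∈ face A k := fun m hm =>
    subset_convexHull _ _ (mem_image_of_mem _ hm)
  have hconv : Convex ℝ (face A k) := convex_convexHull ℝ _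
  rcases eq_or_lt_of_le (by linarith : x ≤ 1) with h | h
  · have hy0 : y = 0 := by linarith
    have hz0 : z = 0 := by linarith
    rw [h, hy0, hz0, one_smul, zero_smul, zero_smul, add_zero, add_zero]
    exact h1 a ha
  · have hpos : 0 < y + z := by linarith
    have h2 : (y / (y + z)) • A b + (z / (y + z)) • A c ∈ face A k :=
      hconv (h1 b hb) (h1 c hc) (by positivity) (by positivity) (by field_simp)
    have h3 := hconv (h1 a ha) h2 hx hpos.le (by linarith)
    have e : x • A a + y • A b + z • A c =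
        x • A a + (y + z) • ((y / (y + z)) • A b + (z / (y + z)) • A c) := by
      rw [smul_add, smul_smul, smul_smul, mul_div_cancel₀ _ hpos.ne', mul_div_cancel₀ _ hpos.ne',
        add_assoc]
    rw [e]
    exact h3

end Q188.Quasi
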