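import Pool.Agent.Q188.Quasi.Curve

/-!
# Infinitely many simple closed quasigeodesics through two vertices
-/

set_option autoImplicit false
open Set

namespace Q188.Quasi

/-- folded lines -/
noncomputable def G (m : ℕ) (t : ℝ) : E3 := Fo t (2 * m * t)

/-- the curve which follows `G n` from one vertex to the other and returns along `G (n + 1)` -/
noncomputable def cv (n : ℕ) (t : ℝ) : E3 := if ⌊t⌋ % 2 = 0 then G n t else G (n + 1) t

theorem G_coord (m : ℕ) (t : ℝ) : G m t = p3 (Wv (2 * m * t)) (Wv t) (Wv (t + 2 * m * t)) := rfl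

theorem G_add_two (m : ℕ) (t : ℝ) : G m (t + 2) = G m t := by
  rw [G_coord, G_coord]
  have e1 : 2 * (m : ℝ) * (t + 2) = 2 * m * t + 2 * ((2 * m : ℤ) : ℝ) := by push_cast; ring
  have e2 : t + 2 = t + 2 * ((1 : ℤ) : ℝ) := by push_cast; ring
  have e3 : t + 2 + 2 * (m : ℝ) * (t + 2) = t + 2 * m * t + 2 * ((1 + 2 * m : ℤ) : ℝ) := by
    push_cast; ring
  rw [e3, e1, e2, Wv_add_even, Wv_add_even, Wv_add_even]

theorem G_neg (m : ℕ) (t : ℝ) : G m (-t) = G m t := by
  rw [G_coord, G_coord]
  have e1 : 2 * (m : ℝ) * (-t) = -(2 * m * t) := by ring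
  have e3 : -t + 2 * (m : ℝ) * (-t) = -(t + 2 * m * t) := by ring
  rw [e3, e1, Wv_neg, Wv_neg, Wv_neg]

theorem cv_per (n : ℕ) (t : ℝ) : cv n (t + 2) = cv n t := by
  unfold cv
  rw [G_add_two, G_add_two]
  have e : ⌊t + 2⌋ = ⌊t⌋ + 2 := by
    have := Int.floor_add_ofNat t 2
    exact_mod_cast this
  have e2 : (⌊t⌋ + 2) % 2 = ⌊t⌋ % 2 := by omega
  rw [e, e2]

/-- the two-sided expansion at parameters which are not integers -/
theorem quasi_G (m : ℕ) (t : ℝ) (hfr : 0 < Int.fract t) {γ : ℝ → E3}
    (hγ : ∀ s : ℝ, ⌊s⌋ = ⌊t⌋ → γ s = G m s) : QuasiAt Reg γ t := by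
  have hpi := Real.pi_pos
  set i := ⌊t⌋ with hi
  set a := Int.fract t with ha
  have ha1 : a < 1 := Int.fract_lt_one t
  have hta : t = i + a := (Int.floor_add_fract t).symm
  set j := ⌊2 * (m:ℝ) * t⌋ with hj
  set b := Int.fract (2 * (m:ℝ) * t) with hb
  have hb0 : 0 ≤ b := Int.fract_nonneg _
  have hb1 : b < 1 := Int.fract_lt_one _
  have htb : 2 * (m:ℝ) * t = j + b := (Int.floor_add_fract _).symm
  have hm : (0:ℝ) < 2 * m + 1 := by positivity
  have hm1 : (1:ℝ) ≤ 2 * m + 1 := by linarith [(Nat.cast_nonneg m : (0:ℝ) ≤ m)]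
  have hm0 : (0:ℝ) ≤ m := Nat.cast_nonneg m
  -- values
  have hfl : ∀ h : ℝ, 0 ≤ a + h → a + h < 1 → γ (t + h) = Fo (i + (a + h)) (j + (b + 2 * m * h)) := by
    intro h h1 h2
    rw [hγ]
    · unfold G
      congr 1
      · rw [hta]; ring
      · calc 2 * (m:ℝ) * (t + h) = 2 * m * t + 2 * m * h := by ring
          _ = j + (b + 2 * m * h) := by rw [htb]; ring
    · rw [Int.floor_eq_iff]
      constructor
      · rw [hta]; linarith
      · rw [hta]; linarith
  have hpar := neg_one_zpow_sq
  -- not a vertex
  have hnv : γ t ∉ range Reg := by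
    rintro ⟨k, hk⟩
    have h0 : γ t = Fo (i + a) (j + b) := by
      have := hfl 0 (by linarith) (by linarith)
      rw [add_zero, add_zero, mul_zero, add_zero] at this
      exact this
    have h1 : (γ t) 1 = (-1) ^ i * (1 - 2 * a) := by
      rw [h0]
      unfold Fo
      rw [p3_one, Wv_int' i hfr.le ha1.le]
    have h2 : (Reg k) 1 = 1 ∨ (Reg k) 1 = -1 := by
      fin_cases k
      · left; rfl
      · right; rfl
      · left; rfl
      · right; rfl
    have h3 : ((Reg k) 1) ^ 2 = 1 := by
      rcases h2 with h2 | h2 <;> rw [h2] <;> norm_num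
    rw [hk, h1, mul_pow, sq ((-1 : ℝ) ^ i), hpar] at h3
    nlinarith
  have hvert : ∀ (d₁ d₂ : E3) (k l : Fin 4), (∀ i, γ t = Reg i → ∃ j α,
      SideAngle Reg d₁ d₂ k l i j α ∧ α ≤ Real.pi ∧ totalAngle Reg i - α ≤ Real.pi) :=
    fun d₁ d₂ k l i' hi' => absurd ⟨i', hi'.symm⟩ hnv
  rcases eq_or_lt_of_le hb0 with hbz | hbpos
  · -- on a horizontal edge
    set ε := min a (1 - a) / (2 * (2 * (m:ℝ) + 1)) with hε
    have hmin : 0 < min a (1 - a) := lt_min hfr (by linarith)
    have hεpos : 0 < ε := by positivity
    have hε1 : (2 * (m:ℝ) + 1) * ε ≤ a / 2 := by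
      have : (2 * (m:ℝ) + 1) * ε = min a (1 - a) / 2 := by rw [hε]; field_simp
      rw [this]
      linarith [min_le_left a (1 - a)]
    have hε2 : (2 * (m:ℝ) + 1) * ε ≤ (1 - a) / 2 := by
      have : (2 * (m:ℝ) + 1) * ε = min a (1 - a) / 2 := by rw [hε]; field_simp
      rw [this]
      linarith [min_le_right a (1 - a)]
    have e0 : γ t = p3 ((-1) ^ j) ((-1) ^ i * (1 - 2 * a)) ((-1) ^ (i + j) * (1 - 2 * a)) := by
      have := hfl 0 (by linarith) (by linarith)
      rw [add_zero, add_zero, mul_zero, add_zero, ← hbz,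
        up_eq i j hfr.le le_rfl (by linarith)] at this
      rw [this]
      apply ext3
      · simp only [p3_zero]; ring
      · rfl
      · simp only [p3_two]; ring
    refine ⟨p3 (-(4 * m) * (-1) ^ j) (2 * (-1) ^ i) (2 * (2 * m + 1) * (-1) ^ (i + j)),
      p3 (-(4 * m) * (-1) ^ j) (-2 * (-1) ^ i) (-2 * (2 * m + 1) * (-1) ^ (i + j)),
      idx i (j - 1), idx (i + 1) (j + 1), ⟨?_, ?_, ε, hεpos, ?_⟩, ?_, hvert _ _ _ _⟩
    · intro h0
      have h1 : (2 * (-1) ^ i : ℝ) = 0 := congrFun (congrArg WithLp.ofLp h0) 1
      have h2 := hpar i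
      have h3 : (-1 : ℝ) ^ i = 0 := by linarith
      rw [h3] at h2
      norm_num at h2
    · intro h0
      have h1 : (-2 * (-1) ^ i : ℝ) = 0 := congrFun (congrArg WithLp.ofLp h0) 1
      have h2 := hpar i
      have h3 : (-1 : ℝ) ^ i = 0 := by linarith
      rw [h3] at h2
      norm_num at h2
    · intro s hs
      have hs1 := hs.1
      have hs2 : (2 * (m:ℝ) + 1) * s ≤ (2 * (m:ℝ) + 1) * ε := mul_le_mul_of_nonneg_left hs.2 hm.le
      have hms : 0 ≤ 2 * (m:ℝ) * s := by
        have := hs.1
        positivity
      have hb' : γ (t - s) = Fo (i + (a - s)) (((j - 1 : ℤ) : ℝ) + (1 - 2 * m * s)) := by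
        have := hfl (-s) (by linarith) (by linarith [hs.1])
        rw [← sub_eq_add_neg, ← sub_eq_add_neg, ← hbz] at this
        rw [this]
        congr 1
        push_cast
        ring
      have hf' : γ (t + s) = Fo (i + (a + s)) (j + 2 * m * s) := by
        have := hfl s (by linarith [hs.1]) (by linarith)
        rw [← hbz, zero_add] at this
        exact this
      have d1 : a - s ≤ 1 := by linarith [hs.1]
      have d2 : (1:ℝ) - 2 * m * s ≤ 1 := by linarith
      have d3 : 1 ≤ a - s + (1 - 2 * m * s) := by linarith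
      have u1 : 0 ≤ a + s := by linarith [hs.1]
      have u3 : a + s + 2 * m * s ≤ 1 := by linarith
      refine ⟨?_, ?_, ?_, ?_⟩
      · rw [hb', down_eq i (j - 1) d1 d2 d3, e0]
        have q1 : (-1 : ℝ) ^ (j - 1) = -(-1) ^ j := by
          have := neg_one_succ (j - 1)
          rw [sub_add_cancel] at this
          linarith
        have q2 : (-1 : ℝ) ^ (i + (j - 1)) = -(-1) ^ (i + j) := by
          have := neg_one_succ (i + (j - 1))
          rw [show i + (j - 1) + 1 = i + j by ring] at this
          linarith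
        apply ext3
        · simp only [PiLp.add_apply, PiLp.smul_apply, p3_zero, smul_eq_mul]
          rw [q1]; ring
        · simp only [PiLp.add_apply, PiLp.smul_apply, p3_one, smul_eq_mul]
          ring
        · simp only [PiLp.add_apply, PiLp.smul_apply, p3_two, smul_eq_mul]
          rw [q2]; ring
      · rw [hf', up_eq i j u1 hms u3, e0]
        apply ext3
        · simp only [PiLp.add_apply, PiLp.smul_apply, p3_zero, smul_eq_mul]
          ring
        · simp only [PiLp.add_apply, PiLp.smul_apply, p3_one, smul_eq_mul]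
          ring
        · simp only [PiLp.add_apply, PiLp.smul_apply, p3_two, smul_eq_mul]
          ring
      · rw [hb']; exact down_mem i (j - 1) d1 d2 d3
      · rw [hf']; exact up_mem i j u1 hms u3
    · intro _
      have hne1 : idx i (j - 1) ≠ idx (i + 1) (j + 1) := by
        unfold idx
        split_ifs <;> first | omega | decide
      have hne2 : idx i j ≠ idx i (j - 1) := by
        unfold idx
        split_ifs <;> first | omega | decide
      have hne3 : idx (i + 1) j ≠ idx i (j - 1) := by
        unfold idx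
        split_ifs <;> first | omega | decide
      refine ⟨idx i j, idx (i + 1) j, Real.pi, Or.inr ⟨hne1, idx_ne_left i j, hne2,
        idx_ne_both i j, hne3, idx_ne_right (i + 1) j, ?_⟩, le_rfl, by linarith⟩
      symm
      have h1 := hpar i
      have h2 := hpar (i + j)
      rw [reg_idx, reg_idx, show i + 1 + j = i + j + 1 by ring, neg_one_succ, neg_one_succ]
      apply angle_sum
      · rw [inner3, inner3]
        simp only [PiLp.sub_apply, p3_zero, p3_one, p3_two]
        ring
      · apply norm_eq_of_sq
        simp only [p3_zero, p3_one, p3_two]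
        ring
  · rcases lt_trichotomy (a + b) 1 with hab | hab | hab
    · -- inside an upper triangle
      set ε := min a (min b (1 - a - b)) / (2 * (2 * (m:ℝ) + 1)) with hε
      have hmin : 0 < min a (min b (1 - a - b)) := lt_min hfr (lt_min hbpos (by linarith))
      have hεpos : 0 < ε := by positivity
      have hεe : (2 * (m:ℝ) + 1) * ε = min a (min b (1 - a - b)) / 2 := by rw [hε]; field_simp
      have hε1 : (2 * (m:ℝ) + 1) * ε ≤ a / 2 := by
        rw [hεe]
        linarith [min_le_left a (min b (1 - a - b))]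
      have hε2 : (2 * (m:ℝ) + 1) * ε ≤ b / 2 := by
        rw [hεe]
        linarith [(min_le_right a (min b (1 - a - b))).trans (min_le_left _ _)]
      have hε3 : (2 * (m:ℝ) + 1) * ε ≤ (1 - a - b) / 2 := by
        rw [hεe]
        linarith [(min_le_right a (min b (1 - a - b))).trans (min_le_right _ _)]
      have e0 : γ t = p3 ((-1) ^ j * (1 - 2 * b)) ((-1) ^ i * (1 - 2 * a))
          ((-1) ^ (i + j) * (1 - 2 * (a + b))) := by
        have := hfl 0 (by linarith) (by linarith)
        rw [add_zero, add_zero, mul_zero, add_zero, up_eq i j hfr.le hb0 hab.le] at this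
        exact this
      set d : E3 := p3 (-(4 * m) * (-1) ^ j) (-2 * (-1) ^ i) (-2 * (2 * m + 1) * (-1) ^ (i + j))
        with hd
      have hd0 : d ≠ 0 := by
        intro h0
        have h1 : (-2 * (-1) ^ i : ℝ) = 0 := congrFun (congrArg WithLp.ofLp h0) 1
        have h2 := hpar i
        have h3 : (-1 : ℝ) ^ i = 0 := by linarith
        rw [h3] at h2
        norm_num at h2
      refine ⟨-d, d, idx (i + 1) (j + 1), idx (i + 1) (j + 1), ⟨neg_ne_zero.2 hd0, hd0, ε, hεpos,
        ?_⟩, ?_, hvert _ _ _ _⟩
      · intro s hs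
        have hs1 := hs.1
        have hs2 : (2 * (m:ℝ) + 1) * s ≤ (2 * (m:ℝ) + 1) * ε := mul_le_mul_of_nonneg_left hs.2 hm.le
        have hms : 0 ≤ 2 * (m:ℝ) * s := by
          have := hs.1
          positivity
        have hb' := hfl (-s) (by linarith) (by linarith [hs.1])
        have hf' := hfl s (by linarith [hs.1]) (by linarith)
        rw [← sub_eq_add_neg] at hb'
        have b1 : 0 ≤ a + -s := by linarith
        have b2 : 0 ≤ b + 2 * m * -s := by linarith
        have b3 : a + -s + (b + 2 * m * -s) ≤ 1 := by linarith [hs.1]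
        have f1 : 0 ≤ a + s := by linarith [hs.1]
        have f2 : 0 ≤ b + 2 * m * s := by linarith
        have f3 : a + s + (b + 2 * m * s) ≤ 1 := by linarith
        refine ⟨?_, ?_, ?_, ?_⟩
        · rw [hb', up_eq i j b1 b2 b3, e0]
          apply ext3
          · simp only [PiLp.add_apply, PiLp.smul_apply, PiLp.neg_apply, hd, p3_zero, smul_eq_mul]
            ring
          · simp only [PiLp.add_apply, PiLp.smul_apply, PiLp.neg_apply, hd, p3_one, smul_eq_mul]
            ring
          · simp only [PiLp.add_apply, PiLp.smul_apply, PiLp.neg_apply, hd, p3_two, smul_eq_mul]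
            ring
        · rw [hf', up_eq i j f1 f2 f3, e0]
          apply ext3
          · simp only [PiLp.add_apply, PiLp.smul_apply, hd, p3_zero, smul_eq_mul]
            ring
          · simp only [PiLp.add_apply, PiLp.smul_apply, hd, p3_one, smul_eq_mul]
            ring
          · simp only [PiLp.add_apply, PiLp.smul_apply, hd, p3_two, smul_eq_mul]
            ring
        · rw [hb']; exact up_mem i j b1 b2 b3
        · rw [hf']; exact up_mem i j f1 f2 f3
      · intro _
        refine ⟨0, 0, Real.pi, Or.inl ⟨rfl, ?_⟩, le_rfl, by linarith⟩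
        rw [InnerProductGeometry.angle_neg_self_of_nonzero hd0]
    · -- on a diagonal edge
      set ε := min (min a b) (min (1 - a) (1 - b)) / (2 * (2 * (m:ℝ) + 1)) with hε
      have hmin : 0 < min (min a b) (min (1 - a) (1 - b)) :=
        lt_min (lt_min hfr hbpos) (lt_min (by linarith) (by linarith))
      have hεpos : 0 < ε := by positivity
      have hεe : (2 * (m:ℝ) + 1) * ε = min (min a b) (min (1 - a) (1 - b)) / 2 := by
        rw [hε]; field_simp
      have hε1 : (2 * (m:ℝ) + 1) * ε ≤ a / 2 := by
        rw [hεe]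
        linarith [(min_le_left (min a b) (min (1 - a) (1 - b))).trans (min_le_left _ _)]
      have hε2 : (2 * (m:ℝ) + 1) * ε ≤ b / 2 := by
        rw [hεe]
        linarith [(min_le_left (min a b) (min (1 - a) (1 - b))).trans (min_le_right _ _)]
      have hε3 : (2 * (m:ℝ) + 1) * ε ≤ (1 - a) / 2 := by
        rw [hεe]
        linarith [(min_le_right (min a b) (min (1 - a) (1 - b))).trans (min_le_left _ _)]
      have hε4 : (2 * (m:ℝ) + 1) * ε ≤ (1 - b) / 2 := by
        rw [hεe]
        linarith [(min_le_right (min a b) (min (1 - a) (1 - b))).trans (min_le_right _ _)]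
      have e0 : γ t = p3 ((-1) ^ j * (1 - 2 * b)) ((-1) ^ i * (1 - 2 * a)) (-(-1) ^ (i + j)) := by
        have := hfl 0 (by linarith) (by linarith)
        rw [add_zero, add_zero, mul_zero, add_zero, up_eq i j hfr.le hb0 hab.le, hab] at this
        rw [this]
        apply ext3
        · rfl
        · rfl
        · simp only [p3_two]; ring
      refine ⟨p3 (4 * m * (-1) ^ j) (2 * (-1) ^ i) (2 * (2 * m + 1) * (-1) ^ (i + j)),
        p3 (-(4 * m) * (-1) ^ j) (-2 * (-1) ^ i) (2 * (2 * m + 1) * (-1) ^ (i + j)),
        idx (i + 1) (j + 1), idx i j, ⟨?_, ?_, ε, hεpos, ?_⟩, ?_, hvert _ _ _ _⟩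
      · intro h0
        have h1 : (2 * (-1) ^ i : ℝ) = 0 := congrFun (congrArg WithLp.ofLp h0) 1
        have h2 := hpar i
        have h3 : (-1 : ℝ) ^ i = 0 := by linarith
        rw [h3] at h2
        norm_num at h2
      · intro h0
        have h1 : (-2 * (-1) ^ i : ℝ) = 0 := congrFun (congrArg WithLp.ofLp h0) 1
        have h2 := hpar i
        have h3 : (-1 : ℝ) ^ i = 0 := by linarith
        rw [h3] at h2
        norm_num at h2
      · intro s hs
        have hs1 := hs.1
        have hs2 : (2 * (m:ℝ) + 1) * s ≤ (2 * (m:ℝ) + 1) * ε := mul_le_mul_of_nonneg_left hs.2 hm.le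
        have hms : 0 ≤ 2 * (m:ℝ) * s := by
          have := hs.1
          positivity
        have hb' := hfl (-s) (by linarith) (by linarith [hs.1])
        have hf' := hfl s (by linarith [hs.1]) (by linarith)
        rw [← sub_eq_add_neg] at hb'
        have b1 : 0 ≤ a + -s := by linarith
        have b2 : 0 ≤ b + 2 * m * -s := by linarith
        have b3 : a + -s + (b + 2 * m * -s) ≤ 1 := by linarith [hs.1]
        have f1 : a + s ≤ 1 := by linarith
        have f2 : b + 2 * m * s ≤ 1 := by linarith [hs.1]
        have f3 : 1 ≤ a + s + (b + 2 * m * s) := by linarith [hs.1]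
        refine ⟨?_, ?_, ?_, ?_⟩
        · rw [hb', up_eq i j b1 b2 b3, e0]
          apply ext3
          · simp only [PiLp.add_apply, PiLp.smul_apply, p3_zero, smul_eq_mul]
            ring
          · simp only [PiLp.add_apply, PiLp.smul_apply, p3_one, smul_eq_mul]
            ring
          · simp only [PiLp.add_apply, PiLp.smul_apply, p3_two, smul_eq_mul]
            linear_combination (-2 * (-1) ^ (i + j)) * hab
        · rw [hf', down_eq i j f1 f2 f3, e0]
          apply ext3
          · simp only [PiLp.add_apply, PiLp.smul_apply, p3_zero, smul_eq_mul]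
            ring
          · simp only [PiLp.add_apply, PiLp.smul_apply, p3_one, smul_eq_mul]
            ring
          · simp only [PiLp.add_apply, PiLp.smul_apply, p3_two, smul_eq_mul]
            linear_combination (2 * (-1) ^ (i + j)) * hab
        · rw [hb']; exact up_mem i j b1 b2 b3
        · rw [hf']; exact down_mem i j f1 f2 f3
      · intro _
        refine ⟨idx (i + 1) j, idx i (j + 1), Real.pi, Or.inr ⟨(idx_ne_both i j).symm,
          idx_ne_cross i j, idx_ne_right (i + 1) j, (idx_ne_left i j).symm,
          idx_ne_left i (j + 1), (idx_ne_right i j).symm, ?_⟩, le_rfl, by linarith⟩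
        symm
        have h1 := hpar i
        have h2 := hpar j
        rw [reg_idx, reg_idx, show i + 1 + j = i + j + 1 by ring,
          show i + (j + 1) = i + j + 1 by ring, neg_one_succ, neg_one_succ, neg_one_succ]
        apply angle_sum
        · rw [inner3, inner3]
          simp only [PiLp.sub_apply, p3_zero, p3_one, p3_two]
          ring
        · apply norm_eq_of_sq
          simp only [p3_zero, p3_one, p3_two]
          ring
    · -- inside a lower triangle
      set ε := min (1 - a) (min (1 - b) (a + b - 1)) / (2 * (2 * (m:ℝ) + 1)) with hε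
      have hmin : 0 < min (1 - a) (min (1 - b) (a + b - 1)) :=
        lt_min (by linarith) (lt_min (by linarith) (by linarith))
      have hεpos : 0 < ε := by positivity
      have hεe : (2 * (m:ℝ) + 1) * ε = min (1 - a) (min (1 - b) (a + b - 1)) / 2 := by
        rw [hε]; field_simp
      have hε1 : (2 * (m:ℝ) + 1) * ε ≤ (1 - a) / 2 := by
        rw [hεe]
        linarith [min_le_left (1 - a) (min (1 - b) (a + b - 1))]
      have hε2 : (2 * (m:ℝ) + 1) * ε ≤ (1 - b) / 2 := by
        rw [hεe]
        linarith [(min_le_right (1 - a) (min (1 - b) (a + b - 1))).trans (min_le_left _ _)]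
      have hε3 : (2 * (m:ℝ) + 1) * ε ≤ (a + b - 1) / 2 := by
        rw [hεe]
        linarith [(min_le_right (1 - a) (min (1 - b) (a + b - 1))).trans (min_le_right _ _)]
      have e0 : γ t = p3 ((-1) ^ j * (1 - 2 * b)) ((-1) ^ i * (1 - 2 * a))
          ((-1) ^ (i + j) * (2 * (a + b) - 3)) := by
        have := hfl 0 (by linarith) (by linarith)
        rw [add_zero, add_zero, mul_zero, add_zero, down_eq i j ha1.le hb1.le hab.le] at this
        exact this
      set d : E3 := p3 (-(4 * m) * (-1) ^ j) (-2 * (-1) ^ i) (2 * (2 * m + 1) * (-1) ^ (i + j))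
        with hd
      have hd0 : d ≠ 0 := by
        intro h0
        have h1 : (-2 * (-1) ^ i : ℝ) = 0 := congrFun (congrArg WithLp.ofLp h0) 1
        have h2 := hpar i
        have h3 : (-1 : ℝ) ^ i = 0 := by linarith
        rw [h3] at h2
        norm_num at h2
      refine ⟨-d, d, idx i j, idx i j, ⟨neg_ne_zero.2 hd0, hd0, ε, hεpos, ?_⟩, ?_, hvert _ _ _ _⟩
      · intro s hs
        have hs1 := hs.1
        have hs2 : (2 * (m:ℝ) + 1) * s ≤ (2 * (m:ℝ) + 1) * ε := mul_le_mul_of_nonneg_left hs.2 hm.le
        have hms : 0 ≤ 2 * (m:ℝ) * s := by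
          have := hs.1
          positivity
        have hb' := hfl (-s) (by linarith) (by linarith [hs.1])
        have hf' := hfl s (by linarith [hs.1]) (by linarith)
        rw [← sub_eq_add_neg] at hb'
        have b1 : a + -s ≤ 1 := by linarith [hs.1]
        have b2 : b + 2 * m * -s ≤ 1 := by linarith
        have b3 : 1 ≤ a + -s + (b + 2 * m * -s) := by linarith
        have f1 : a + s ≤ 1 := by linarith
        have f2 : b + 2 * m * s ≤ 1 := by linarith [hs.1]
        have f3 : 1 ≤ a + s + (b + 2 * m * s) := by linarith [hs.1]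
        refine ⟨?_, ?_, ?_, ?_⟩
        · rw [hb', down_eq i j b1 b2 b3, e0]
          apply ext3
          · simp only [PiLp.add_apply, PiLp.smul_apply, PiLp.neg_apply, hd, p3_zero, smul_eq_mul]
            ring
          · simp only [PiLp.add_apply, PiLp.smul_apply, PiLp.neg_apply, hd, p3_one, smul_eq_mul]
            ring
          · simp only [PiLp.add_apply, PiLp.smul_apply, PiLp.neg_apply, hd, p3_two, smul_eq_mul]
            ring
        · rw [hf', down_eq i j f1 f2 f3, e0]
          apply ext3
          · simp only [PiLp.add_apply, PiLp.smul_apply, hd, p3_zero, smul_eq_mul]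
            ring
          · simp only [PiLp.add_apply, PiLp.smul_apply, hd, p3_one, smul_eq_mul]
            ring
          · simp only [PiLp.add_apply, PiLp.smul_apply, hd, p3_two, smul_eq_mul]
            ring
        · rw [hb']; exact down_mem i j b1 b2 b3
        · rw [hf']; exact down_mem i j f1 f2 f3
      · intro _
        refine ⟨0, 0, Real.pi, Or.inl ⟨rfl, ?_⟩, le_rfl, by linarith⟩
        rw [InnerProductGeometry.angle_neg_self_of_nonzero hd0]

end Q188.Quasi
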