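import Pool.Agent.Q188.Quasi.Main

/-!
# Final facts
-/

set_option autoImplicit false
open Set

namespace Q188.Quasi

theorem Wv_zero : Wv 0 = 1 := by
  rw [Wv_small (by norm_num)]
  norm_num

theorem Wv_one : Wv 1 = -1 := by
  rw [Wv_small (by norm_num)]
  norm_num

theorem reg_zero_mem (n : ℕ) : Reg 0 ∈ range (cv n) := by
  refine ⟨((0 : ℤ) : ℝ), ?_⟩
  rw [cv_int_reg]
  rfl

theorem reg_one_mem (n : ℕ) : Reg 1 ∈ range (cv n) := by
  refine ⟨((1 : ℤ) : ℝ), ?_⟩
  rw [cv_int_reg]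
  rfl

/-- at heights `±1` the first coordinate is `1` -/
theorem x_of_vertex (n : ℕ) {t : ℝ} (h : (cv n t) 1 = 1 ∨ (cv n t) 1 = -1) : (cv n t) 0 = 1 := by
  rw [cv_one] at h
  have hint : ∃ N : ℤ, t = N := by
    rcases h with h | h
    · obtain ⟨k, hk⟩ := Wv_eq_iff (Wv_zero.trans h.symm)
      refine ⟨2 * k, ?_⟩
      push_cast
      rcases hk with hk | hk <;> linarith
    · obtain ⟨k, hk⟩ := Wv_eq_iff (Wv_one.trans h.symm)
      rcases hk with hk | hk
      · exact ⟨2 * k + 1, by push_cast; linarith⟩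
      · exact ⟨2 * k - 1, by push_cast; linarith⟩
  obtain ⟨N, rfl⟩ := hint
  rw [cv_int]
  rfl

theorem reg_two_not (n : ℕ) : Reg 2 ∉ range (cv n) := by
  rintro ⟨t, ht⟩
  have h1 := x_of_vertex n (t := t) (Or.inl (by rw [ht]; rfl))
  rw [ht] at h1
  have h2 : ((-1 : ℝ)) = 1 := h1
  norm_num at h2

theorem reg_three_not (n : ℕ) : Reg 3 ∉ range (cv n) := by
  rintro ⟨t, ht⟩
  have h1 := x_of_vertex n (t := t) (Or.inr (by rw [ht]; rfl))
  rw [ht] at h1
  have h2 : ((-1 : ℝ)) = 1 := h1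
  norm_num at h2

theorem not_segment : ¬ segment ℝ (Reg 0) (Reg 1) ⊆ range (cv 1) := by
  intro h
  have hmem : p3 1 (1 / 2) (1 / 2) ∈ segment ℝ (Reg 0) (Reg 1) := by
    refine ⟨3 / 4, 1 / 4, by norm_num, by norm_num, by norm_num, ?_⟩
    apply ext3
    · show (3 / 4 : ℝ) * 1 + 1 / 4 * 1 = 1
      norm_num
    · show (3 / 4 : ℝ) * 1 + 1 / 4 * (-1) = 1 / 2
      norm_num
    · show (3 / 4 : ℝ) * 1 + 1 / 4 * (-1) = 1 / 2
      norm_num
  obtain ⟨t, ht⟩ := h hmem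
  have hq : Wv (1 / 4) = 1 / 2 := by
    rw [Wv_small (by rw [abs_of_nonneg] <;> norm_num), abs_of_nonneg (by norm_num)]
    norm_num
  have h1 := cv_height 1 (t := 1 / 4) (t' := t) (by norm_num) (by norm_num)
    (by rw [ht, hq]; rfl)
  rw [ht] at h1
  rcases h1 with h1 | h1
  · have h2 : (1:ℝ) = Wv (2 * ((1 : ℕ) : ℝ) * (1 / 4)) := congrFun (congrArg WithLp.ofLp h1) 0
    have e : (2 * ((1 : ℕ) : ℝ) * (1 / 4)) = 1 / 2 := by push_cast; norm_num
    rw [e, Wv_small (by rw [abs_of_nonneg] <;> norm_num), abs_of_nonneg (by norm_num)] at h2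
    norm_num at h2
  · have h2 : (1:ℝ) = Wv (2 * ((1 + 1 : ℕ) : ℝ) * (1 / 4)) := congrFun (congrArg WithLp.ofLp h1) 0
    have e : (2 * ((1 + 1 : ℕ) : ℝ) * (1 / 4)) = 1 := by push_cast; norm_num
    rw [e, Wv_one] at h2
    norm_num at h2

theorem range_inj_aux {n m : ℕ} (hnm : n < m) : range (cv n) ≠ range (cv m) := by
  intro h
  set t : ℝ := 1 / (2 * (m + 1)) with ht
  have hm0 : (0:ℝ) ≤ m := Nat.cast_nonneg m
  have hn0 : (0:ℝ) ≤ n := Nat.cast_nonneg n
  have hnm' : (n:ℝ) < m := by exact_mod_cast hnm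
  have ht0 : 0 < t := by positivity
  have htm : 2 * ((m:ℝ) + 1) * t = 1 := by rw [ht]; field_simp
  have ht1 : t < 1 := by
    have : t ≤ 1 / 2 := by
      rw [ht]
      apply div_le_div_of_nonneg_left <;> linarith
    linarith
  have hmem : G n t ∈ range (cv m) := by
    rw [← h]
    exact ⟨t, cv_low n ht0.le ht1⟩
  obtain ⟨t', ht'⟩ := hmem
  have h1 := cv_height m (t := t) (t' := t') ht0 ht1 (by rw [ht']; rfl)
  rw [ht'] at h1
  have hnt : 2 * (n:ℝ) * t ≤ 1 := by nlinarith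
  have hmt : 2 * (m:ℝ) * t ≤ 1 := by nlinarith
  have w1 : Wv (2 * n * t) = 1 - 2 * (2 * n * t) := by
    rw [Wv_small (by rw [abs_of_nonneg (by positivity)]; exact hnt), abs_of_nonneg (by positivity)]
  rcases h1 with h1 | h1
  · have h2 : Wv (2 * n * t) = Wv (2 * m * t) := congrFun (congrArg WithLp.ofLp h1) 0
    rw [w1, Wv_small (by rw [abs_of_nonneg (by positivity)]; exact hmt),
      abs_of_nonneg (by positivity)] at h2
    nlinarith
  · have h2 : Wv (2 * n * t) = Wv (2 * ((m + 1 : ℕ) : ℝ) * t) :=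
      congrFun (congrArg WithLp.ofLp h1) 0
    push_cast at h2
    rw [w1, htm, Wv_one] at h2
    nlinarith

theorem range_inj : Function.Injective fun n : ℕ => range (cv n) := by
  intro n m h
  by_contra hne
  rcases lt_or_gt_of_ne hne with hl | hl
  · exact range_inj_aux hl h
  · exact range_inj_aux hl h.symm

end Q188.Quasi
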