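import Pool.Agent.Q188.Quasi.Family

/-!
# The main facts about the curves `cv n`
-/

set_option autoImplicit false
open Set

namespace Q188.Quasi

theorem G_refl (m : ℕ) (N : ℤ) (s : ℝ) : G m (N - s) = G m (N + s) := by
  have h1 : ∀ k : ℤ, ∀ t, G m (t + k * 2) = G m t := by
    intro k t
    have hp : Function.Periodic (G m) 2 := G_add_two m
    exact hp.int_mul k t
  rw [← G_neg, ← h1 N (-(N - s))]
  congr 1
  ring

theorem vertex_dir (m : ℕ) (N : ℤ) {s : ℝ} (h0 : 0 ≤ s) (h1 : (2 * (m:ℝ) + 1) * s ≤ 1) :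
    G m (N + s) = p3 1 ((-1) ^ N) ((-1) ^ N) +
      s • p3 (-(4 * m)) (-2 * (-1) ^ N) (-2 * (2 * m + 1) * (-1) ^ N) ∧
    G m (N + s) ∈ face Reg (idx (N + 1) 1) := by
  have hm0 : (0:ℝ) ≤ m := Nat.cast_nonneg m
  have e : G m (N + s) = Fo (N + s) (((2 * m * N : ℤ) : ℝ) + 2 * m * s) := by
    unfold G
    congr 1
    push_cast
    ring
  have hms : 0 ≤ 2 * (m:ℝ) * s := by positivity
  have hE : Even (2 * (m:ℤ) * N) := ⟨m * N, by ring⟩
  have e1 : ((-1 : ℝ) ^ (2 * (m:ℤ) * N)) = 1 := hE.neg_one_zpow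
  have e2 : ((-1 : ℝ) ^ (N + 2 * (m:ℤ) * N)) = (-1) ^ N := by
    rw [zpow_add₀ (by norm_num), e1, mul_one]
  have e3 : idx (N + 1) (2 * m * N + 1) = idx (N + 1) 1 := by
    have h5 : (2 * (m:ℤ) * N + 1) % 2 = 1 := by
      obtain ⟨r, hr⟩ := hE
      omega
    unfold idx
    rw [h5]
    rfl
  refine ⟨?_, ?_⟩
  · rw [e, up_eq N (2 * m * N) h0 hms (by linarith), e1, e2]
    apply ext3
    · simp only [PiLp.add_apply, PiLp.smul_apply, p3_zero, smul_eq_mul]
      ring
    · simp only [PiLp.add_apply, PiLp.smul_apply, p3_one, smul_eq_mul]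
      ring
    · simp only [PiLp.add_apply, PiLp.smul_apply, p3_two, smul_eq_mul]
      ring
  · rw [e, ← e3]
    exact up_mem N (2 * m * N) h0 hms (by linarith)

theorem G_int (m : ℕ) (N : ℤ) : G m N = p3 1 ((-1) ^ N) ((-1) ^ N) := by
  have := (vertex_dir m N (s := 0) le_rfl (by rw [mul_zero]; norm_num)).1
  rw [add_zero, zero_smul, add_zero] at this
  exact this

theorem cv_int (n : ℕ) (N : ℤ) : cv n N = p3 1 ((-1) ^ N) ((-1) ^ N) := by
  unfold cv
  split_ifs
  · exact G_int n N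
  · exact G_int (n + 1) N

theorem cv_int_reg (n : ℕ) (N : ℤ) : cv n N = Reg (idx N 0) := by
  rw [cv_int, reg_idx, zpow_zero, add_zero]

theorem quasi_int (n : ℕ) (N : ℤ) : QuasiAt Reg (cv n) N := by
  have hpi := Real.pi_pos
  obtain ⟨m₁, hm₁, hm₁'⟩ : ∃ m₁ : ℕ, m₁ ≤ n + 1 ∧ ∀ s : ℝ, 0 ≤ s → s < 1 →
      cv n (N + s) = G m₁ (N + s) := by
    refine ⟨if N % 2 = 0 then n else n + 1, by split_ifs <;> omega, fun s h0 h1 => ?_⟩
    have e : ⌊(N:ℝ) + s⌋ = N := by
      rw [Int.floor_eq_iff]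
      constructor <;> linarith
    unfold cv
    rw [e]
    split_ifs <;> rfl
  obtain ⟨m₂, hm₂, hm₂'⟩ : ∃ m₂ : ℕ, m₂ ≤ n + 1 ∧ ∀ s : ℝ, 0 ≤ s → s < 1 →
      cv n (N - s) = G m₂ (N - s) := by
    refine ⟨if (N - 1) % 2 = 0 then n else n + 1, by split_ifs <;> omega, fun s h0 h1 => ?_⟩
    rcases eq_or_lt_of_le h0 with hz | hpos
    · rw [← hz, sub_zero, cv_int, G_int]
    · have e : ⌊(N:ℝ) - s⌋ = N - 1 := by
        rw [Int.floor_eq_iff]
        push_cast
        constructor <;> linarith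
      unfold cv
      rw [e]
      split_ifs <;> rfl
  have hbound : ∀ m : ℕ, m ≤ n + 1 → (m:ℝ) ≤ n + 1 := fun m hm => by exact_mod_cast hm
  have b1 := hbound m₁ hm₁
  have b2 := hbound m₂ hm₂
  have hn0 : (0:ℝ) ≤ n := Nat.cast_nonneg n
  set ε : ℝ := 1 / (2 * n + 3) with hε
  have hεpos : 0 < ε := by positivity
  have hε1 : (2 * (n:ℝ) + 3) * ε = 1 := by rw [hε]; field_simp
  have hε3 : ε < 1 := by
    rw [hε, div_lt_one (by positivity)]
    linarith
  have hpar := neg_one_zpow_sq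
  have hne : ∀ m : ℕ, p3 (-(4 * m)) (-2 * (-1) ^ N) (-2 * (2 * m + 1) * (-1) ^ N) ≠ 0 := by
    intro m h0
    have h1 : (-2 * (-1) ^ N : ℝ) = 0 := congrFun (congrArg WithLp.ofLp h0) 1
    have h2 := hpar N
    have h3 : (-1 : ℝ) ^ N = 0 := by linarith
    rw [h3] at h2
    norm_num at h2
  refine ⟨p3 (-(4 * m₂)) (-2 * (-1) ^ N) (-2 * (2 * m₂ + 1) * (-1) ^ N),
    p3 (-(4 * m₁)) (-2 * (-1) ^ N) (-2 * (2 * m₁ + 1) * (-1) ^ N),
    idx (N + 1) 1, idx (N + 1) 1, ⟨hne m₂, hne m₁, ε, hεpos, ?_⟩, ?_, ?_⟩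
  · intro s hs
    have hs0 := hs.1
    have hs1 : s < 1 := lt_of_le_of_lt hs.2 hε3
    have hle : ∀ m : ℕ, (m:ℝ) ≤ n + 1 → (2 * (m:ℝ) + 1) * s ≤ 1 := by
      intro m hm
      calc (2 * (m:ℝ) + 1) * s ≤ (2 * (n:ℝ) + 3) * s := by
            apply mul_le_mul_of_nonneg_right _ hs0
            linarith
        _ ≤ (2 * (n:ℝ) + 3) * ε := by
            apply mul_le_mul_of_nonneg_left hs.2
            positivity
        _ = 1 := hε1
    have v1 := vertex_dir m₁ N hs0 (hle m₁ b1)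
    have v2 := vertex_dir m₂ N hs0 (hle m₂ b2)
    rw [hm₁' s hs0 hs1, hm₂' s hs0 hs1, G_refl, cv_int]
    exact ⟨v2.1, v1.1, v2.2, v1.2⟩
  · intro h
    exact absurd ⟨_, (cv_int_reg n N).symm⟩ h
  · intro i _
    refine ⟨0, _, Or.inl ⟨rfl, rfl⟩, InnerProductGeometry.angle_le_pi _ _, ?_⟩
    rw [total_reg]
    linarith [InnerProductGeometry.angle_nonneg
      (p3 (-(4 * m₂)) (-2 * (-1) ^ N) (-2 * (2 * m₂ + 1) * (-1) ^ N))
      (p3 (-(4 * m₁)) (-2 * (-1) ^ N) (-2 * (2 * m₁ + 1) * (-1) ^ N))]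

theorem quasi_cv (n : ℕ) (t : ℝ) : QuasiAt Reg (cv n) t := by
  rcases eq_or_lt_of_le (Int.fract_nonneg t) with h | h
  · have e : t = ⌊t⌋ := by
      have := Int.floor_add_fract t
      linarith
    rw [e]
    exact quasi_int n _
  · by_cases hp : ⌊t⌋ % 2 = 0
    · apply quasi_G n t h
      intro s hs
      unfold cv
      rw [hs, if_pos hp]
    · apply quasi_G (n + 1) t h
      intro s hs
      unfold cv
      rw [hs, if_neg hp]

theorem G_one (m : ℕ) (t : ℝ) : (G m t) 1 = Wv t := rfl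
theorem G_zero (m : ℕ) (t : ℝ) : (G m t) 0 = Wv (2 * m * t) := rfl
theorem G_two (m : ℕ) (t : ℝ) : (G m t) 2 = Wv (t + 2 * m * t) := rfl

theorem cv_one (n : ℕ) (t : ℝ) : (cv n t) 1 = Wv t := by
  unfold cv
  split_ifs <;> rfl

/-- the two arcs meet only in the vertices -/
theorem G_disj (n : ℕ) {t : ℝ} (h0 : 0 < t) (h1 : t < 1) : G n t ≠ G (n + 1) t := by
  intro h
  have hx : Wv (2 * n * t) = Wv (2 * ((n + 1 : ℕ) : ℝ) * t) := congrFun (congrArg WithLp.ofLp h) 0
  have hz : Wv (t + 2 * n * t) = Wv (t + 2 * ((n + 1 : ℕ) : ℝ) * t) :=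
    congrFun (congrArg WithLp.ofLp h) 2
  have hnoint : ∀ k : ℤ, t ≠ k := by
    intro k hk
    rw [hk] at h0 h1
    have a1 : (0:ℤ) < k := by exact_mod_cast h0
    have a2 : k < 1 := by exact_mod_cast h1
    omega
  obtain ⟨k, hk⟩ := Wv_eq_iff hx
  obtain ⟨l, hl⟩ := Wv_eq_iff hz
  push_cast at hk hl
  rcases hk with hk | hk
  · exact hnoint k (by linarith)
  · rcases hl with hl | hl
    · exact hnoint l (by linarith)
    · apply hnoint (l - k)
      push_cast
      linarith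

theorem cv_low (n : ℕ) {t : ℝ} (h0 : 0 ≤ t) (h1 : t < 1) : cv n t = G n t := by
  have e : ⌊t⌋ = 0 := by
    rw [Int.floor_eq_iff]
    push_cast
    constructor <;> linarith
  unfold cv
  rw [e, if_pos (by norm_num)]

theorem cv_neg (n : ℕ) {t : ℝ} (h0 : 0 < t) (h1 : t < 1) : cv n (-t) = G (n + 1) t := by
  have e : ⌊-t⌋ = -1 := by
    rw [Int.floor_eq_iff]
    push_cast
    constructor <;> linarith
  unfold cv
  rw [e, if_neg (by norm_num), G_neg]

theorem cv_perk (n : ℕ) (k : ℤ) (t : ℝ) : cv n (2 * k + t) = cv n t := by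
  have hp : Function.Periodic (cv n) 2 := cv_per n
  have := hp.int_mul k t
  rw [← this]
  congr 1
  ring

/-- which points of the curve have the height `Wv t` -/
theorem cv_height (n : ℕ) {t t' : ℝ} (h0 : 0 < t) (h1 : t < 1) (h : (cv n t') 1 = Wv t) :
    cv n t' = G n t ∨ cv n t' = G (n + 1) t := by
  rw [cv_one] at h
  obtain ⟨k, hk⟩ := Wv_eq_iff h.symm
  rcases hk with hk | hk
  · left
    rw [hk, cv_perk, cv_low n h0.le h1]
  · right
    rw [hk, sub_eq_add_neg, cv_perk, cv_neg n h0 h1]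

theorem simple_cv (n : ℕ) : InjOn (cv n) (Ico 0 2) := by
  intro t ht t' ht' h
  have hy : Wv t = Wv t' := by rw [← cv_one n t, ← cv_one n t', h]
  obtain ⟨k, hk⟩ := Wv_eq_iff hy
  rcases hk with hk | hk
  · have a1 : (-1 : ℝ) < k := by linarith [ht.1, ht.2, ht'.1, ht'.2]
    have a2 : (k : ℝ) < 1 := by linarith [ht.1, ht.2, ht'.1, ht'.2]
    have a3 : k = 0 := by
      have b1 : (-1 : ℤ) < k := by exact_mod_cast a1
      have b2 : k < 1 := by exact_mod_cast a2
      omega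
    rw [a3] at hk
    push_cast at hk
    linarith
  · -- `t' = 2 k - t`
    have a1 : (-1 : ℝ) < k := by linarith [ht.1, ht.2, ht'.1, ht'.2]
    have a2 : (k : ℝ) < 2 := by linarith [ht.1, ht.2, ht'.1, ht'.2]
    have b1 : (-1 : ℤ) < k := by exact_mod_cast a1
    have b2 : k < 2 := by exact_mod_cast a2
    have a3 : k = 0 ∨ k = 1 := by omega
    rcases a3 with a3 | a3
    · rw [a3] at hk
      push_cast at hk
      linarith [ht.1, ht'.1]
    · rw [a3] at hk
      push_cast at hk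
      rw [mul_one] at hk
      -- key step for two parameters symmetric about `1`
      have key : ∀ u : ℝ, 0 < u → u < 1 → cv n u ≠ cv n (2 - u) := by
        intro u h0 h1 he
        have e : cv n (2 - u) = G (n + 1) u := by
          have e1 : 2 - u = 2 * ((1 : ℤ) : ℝ) + -u := by push_cast; ring
          rw [e1, cv_perk, cv_neg n h0 h1]
        rw [cv_low n h0.le h1, e] at he
        exact G_disj n h0 h1 he
      rcases lt_trichotomy t 1 with hc | hc | hc
      · rcases eq_or_lt_of_le ht.1 with hz | hz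
        · rw [← hz] at hk
          linarith [ht'.2]
        · exact absurd (by rw [h, hk]) (key t hz hc)
      · rw [hc] at hk ⊢
        linarith
      · have hk2 : t = 2 - t' := by linarith
        exact absurd (by rw [← h, hk2]) (key t' (by linarith [ht.2]) (by linarith))

/-- **each `cv n` is a simple closed quasigeodesic** -/
theorem scq (n : ℕ) : SimpleClosedQuasigeodesic Reg (cv n) 2 :=
  ⟨by norm_num, cv_per n, simple_cv n, quasi_cv n⟩

theorem reg_indep : AffineIndependent ℝ Reg := by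
  rw [affineIndependent_iff]
  intro s w hw hp
  set w' : Fin 4 → ℝ := fun e => if e ∈ s then w e else 0 with hw'
  have h1 : ∑ e, w' e = 0 := by
    rw [← hw, ← Finset.sum_filter]
    simp
  have h2 : ∑ e, w' e • Reg e = 0 := by
    rw [← hp]
    simp only [hw', ite_smul, zero_smul]
    rw [← Finset.sum_filter]
    simp
  have c0 := congrFun (congrArg WithLp.ofLp h2) 0
  have c1 := congrFun (congrArg WithLp.ofLp h2) 1
  have c2 := congrFun (congrArg WithLp.ofLp h2) 2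
  rw [Fin.sum_univ_four] at h1 c0 c1 c2
  simp [Reg, p3] at c0 c1 c2
  have z0 : w' 0 = 0 := by linarith
  have z1 : w' 1 = 0 := by linarith
  have z2 : w' 2 = 0 := by linarith
  have z3 : w' 3 = 0 := by linarith
  intro e he
  have : w' e = w e := by simp only [hw', he, if_true]
  rw [← this]
  fin_cases e
  · exact z0
  · exact z1
  · exact z2
  · exact z3

end Q188.Quasi
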